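import Pool.Agent.Helper81.C9.Lat

/-!
Project LT (MP_b8862a_ag), block C9, DATA: the properties `RD.Ok` from a table of reflections.
-/

namespace C9

namespace RD

variable {r N : ℕ} {D : RD r N}

theorem ip_smul_left (c : ℤ) (x z : Fin r → ℤ) : D.ip (c • x) z = c * D.ip x z := by
  simp only [RD.ip, Pi.smul_apply, smul_eq_mul, Finset.mul_sum]
  refine Finset.sum_congr rfl fun i _ => Finset.sum_congr rfl fun j _ => ?_
  ring

theorem ip_smul_right (c : ℤ) (x z : Fin r → ℤ) : D.ip x (c • z) = c * D.ip x z := by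
  simp only [RD.ip, Pi.smul_apply, smul_eq_mul, Finset.mul_sum]
  refine Finset.sum_congr rfl fun i _ => Finset.sum_congr rfl fun j _ => ?_
  ring

theorem ip_symm (gb : ∀ i j, D.G i j = D.B i j + D.B j i) (x z : Fin r → ℤ) : D.ip x z = D.ip z x := by
  unfold RD.ip
  rw [Finset.sum_comm]
  refine Finset.sum_congr rfl fun i _ => Finset.sum_congr rfl fun j _ => ?_
  rw [gb i j, gb j i]
  ring

/-- the simple reflection -/
def rfl1 (D : RD r N) (i : Fin r) (x : Fin r → ℤ) : Fin r → ℤ := x - D.ip x (Pi.single i 1) • Pi.single i 1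

theorem rfl1_add (i : Fin r) (x z : Fin r → ℤ) : D.rfl1 i (x + z) = D.rfl1 i x + D.rfl1 i z := by
  unfold rfl1
  rw [ip_add_left, add_smul]
  abel

theorem rfl1_neg (i : Fin r) (x : Fin r → ℤ) : D.rfl1 i (-x) = -D.rfl1 i x := by
  unfold rfl1
  rw [ip_neg_left, neg_smul]
  abel

theorem rfl1_rfl1 {i : Fin r} (h2 : D.ip (Pi.single i 1) (Pi.single i 1) = 2) (x : Fin r → ℤ) :
    D.rfl1 i (D.rfl1 i x) = x := by
  have h1 : D.ip (D.rfl1 i x) (Pi.single i 1) = -D.ip x (Pi.single i 1) := by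
    unfold rfl1
    rw [sub_eq_add_neg, ip_add_left, ip_neg_left, ip_smul_left, h2]
    ring
  have h3 : D.rfl1 i (D.rfl1 i x) = D.rfl1 i x - D.ip (D.rfl1 i x) (Pi.single i 1) • Pi.single i 1 := rfl
  rw [h3, h1]
  unfold rfl1
  rw [neg_smul]
  abel

theorem rfl1_iso (gb : ∀ i j, D.G i j = D.B i j + D.B j i) {i : Fin r} (h2 : D.ip (Pi.single i 1) (Pi.single i 1) = 2)
    (x z : Fin r → ℤ) : D.ip (D.rfl1 i x) (D.rfl1 i z) = D.ip x z := by
  unfold rfl1
  simp only [sub_eq_add_neg, ip_add_left, ip_add_right, ip_neg_left, ip_neg_right, ip_smul_left, ip_smul_right, h2]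
  rw [ip_symm gb (Pi.single i 1) z]
  ring

/-- The properties of the root data from: every simple reflection permutes the roots, and every root is simple or the
reflection of an earlier one. -/
theorem ok_of (gb : ∀ i j, D.G i j = D.B i j + D.B j i) (two : ∀ a, D.ip (D.v a) (D.v a) = 2) (inj : Function.Injective D.v)
    (simp : ∀ i, ∃ a, D.v a = Pi.single i 1) (gi : D.G * D.Gi = D.d • (1 : Matrix (Fin r) (Fin r) ℤ)) (d0 : D.d ≠ 0)
    (pd : ∀ x : Fin r → ℝ, x ≠ 0 → 0 < ∑ i, ∑ j, x i * (D.G i j : ℝ) * x j)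
    (refl : ∀ i a, ∃ b, D.v b = D.rfl1 i (D.v a))
    (chain : ∀ a : Fin N, (∃ i, D.v a = Pi.single i 1) ∨ ∃ i, ∃ b, b < a ∧ D.v a = D.rfl1 i (D.v b)) : D.Ok := by
  have h2 : ∀ i, D.ip (Pi.single i 1) (Pi.single i 1) = 2 := by
    intro i
    obtain ⟨a, ha⟩ := simp i
    rw [← ha]
    exact two a
  have hneg : ∀ a, ∃ b, D.v b = -D.v a := by
    intro a
    induction a using WellFoundedLT.induction with
    | ind a ih =>
      rcases chain a with ⟨i, hi⟩ | ⟨i, b, hb, h⟩
      · obtain ⟨b, hb⟩ := refl i a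
        refine ⟨b, ?_⟩
        rw [hb, rfl1, hi, h2]
        funext k
        simp only [Pi.sub_apply, Pi.smul_apply, Pi.neg_apply, smul_eq_mul]
        ring
      · obtain ⟨c, hc⟩ := ih b hb
        obtain ⟨e, he⟩ := refl i c
        exact ⟨e, by rw [he, hc, rfl1_neg, h]⟩
  refine ⟨gb, two, inj, hneg, ?_, ?_, simp, gi, d0, pd⟩
  · intro a
    induction a using WellFoundedLT.induction with
    | ind a ih =>
      intro b hab
      rcases chain a with ⟨i, hi⟩ | ⟨i, a', ha', h⟩
      · obtain ⟨c, hc⟩ := refl i b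
        refine ⟨c, ?_⟩
        rw [hc, rfl1, hi, ip_symm gb, ← hi, hab, neg_smul, one_smul, sub_neg_eq_add, add_comm]
      · obtain ⟨b', hb'⟩ := refl i b
        have h3 : D.ip (D.v a') (D.v b') = -1 := by
          rw [← rfl1_iso gb (h2 i), ← h, hb', rfl1_rfl1 (h2 i)]
          exact hab
        obtain ⟨c, hc⟩ := ih a' ha' b' h3
        obtain ⟨e, he⟩ := refl i c
        refine ⟨e, ?_⟩
        rw [he, hc, rfl1_add, ← h, hb', rfl1_rfl1 (h2 i)]
  · intro a b
    by_cases hx : D.v a + D.v b = 0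
    · right
      exact eq_neg_of_add_eq_zero_right hx
    · left
      have h3 : D.ip (D.v a + D.v b) (D.v a + D.v b) = 4 + 2 * D.ip (D.v a) (D.v b) := by
        rw [ip_add_left, ip_add_right, ip_add_right, two a, two b, ip_symm gb (D.v b) (D.v a)]
        ring
      have h4 : (0 : ℝ) < ((D.ip (D.v a + D.v b) (D.v a + D.v b) : ℤ) : ℝ) := by
        have h5 := pd (fun i => ((D.v a + D.v b) i : ℝ)) (by
          intro h0
          apply hx
          funext i
          have h7 : ((D.v a i + D.v b i : ℤ) : ℝ) = 0 := congrFun h0 i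
          exact_mod_cast h7)
        refine lt_of_lt_of_eq h5 ?_
        unfold RD.ip
        push_cast
        rfl
      have h6 : 0 < D.ip (D.v a + D.v b) (D.v a + D.v b) := by exact_mod_cast h4
      omega

end RD

end C9
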